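import Mathlib
import Pool.Agent.Q18.P.RS5

/-!
# Spherical cusp forms on `PGL_n`: `θ_v < c/2` at all places from logarithmic means over split primes at one real point

Let `n ≥ 2` and let `φ` be a spherical cusp form on `PGL_n` over `ℚ`, with Satake parameters `α_{i,p}`, Langlands
parameters `μ_i` at the real place and Hecke eigenvalues `λ(p) = ∑_i α_{i,p}`.  Recall
`θ_{φ,p} = max_i |log_p |α_{i,p}||` and `θ_{φ,∞} = max_i |Re μ_i|`.  Let `X` be any group of Dirichlet characters modulo
`q`, and `S_X` the set of the primes `p` with `χ(p) = 1` for all `χ ∈ X`: the primes not dividing `q` which split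
completely in the abelian number field which belongs to `X`.  For a real number `c > 0` put

  `T_c(y) = log ∏_{p ≤ y} (1 - p^{-c})⁻¹ - |X| ∑_{p ≤ y, p ∈ S_X} |λ(p)|² p^{-c}`.

(If the Ramanujan conjecture and the Riemann hypothesis hold for the functions in question, then for `c > 1/2`
`T_c(y) = m log log y + O(1)`, where `m` is the order of `∏_{χ ∈ X} L(s, (π ⊗ χ) × π~) / ζ(s)` at `s = c`.)

**Theorem.**  Suppose that for ONE group `X`, some `c > 0`, `0 < δ < 1`, `ρ`, `B` there are arbitrarily large `Y` with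

  `∫_{Y^{1-δ}}^Y max(T_c(y) - ρ log log y, 0) dy / y ≤ B log Y`

- a bound from one side, in the logarithmic mean, on one arbitrarily sparse sequence of windows -.  Then

* `θ_{φ,v} ≤ c / 2` at every place `v ≤ ∞`;
* if `ρ < 1`, then `θ_{φ,v} < c / 2` at every place `v ≤ ∞`;
* `∏_{χ ∈ X} L(s, (π ⊗ χ) × π~) / ζ(s)` has no zeros and no poles with `Re s > c`, and its order at `s = c` is `≤ ρ`.

So for `n ≥ 5`, `c = 1 - 2/(n² + 1)`, `ρ < 1`, even this weak bound would improve the known bound
`θ_{φ,p} ≤ 1/2 - 1/(n² + 1)` of Luo, Rudnick and Sarnak to a strict inequality, for all `p ≤ ∞` at once, and any smaller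
`c` improves the exponent; the bounds at all places are controlled by the eigenvalues at the primes `p ≡ 1 mod q`, say.

`OneSidedSplitPrimes` and `OneSidedAllPlaces` (this run) need, for `c ≥ 1/2`, a one-sided bound
`∑_{p ≤ x, p ∈ S_X} |λ(p)|² > π(x) / |X| - A x^c` at ALL points `x` of the windows, and give `θ_{φ,v} ≤ c / 2`; here only a mean
is bounded, and the inequality becomes strict.  Nothing is assumed of the zeros of any `L`-function.

The structure `TwistedCuspForm` lists what is used of `φ`: the local components are unitary; `L(s, π × π~)` and its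
twists by the primitive Dirichlet characters have the analytic continuation and the functional equation (Jacquet,
Piatetski-Shapiro, Shalika; Moeglin, Waldspurger).

The proof: let `F(s) = ∏_{χ ∈ X} L(s, (π ⊗ χ) × π~) / ζ(s)`, without the Euler factor at `p` if `p` is the place considered.
`F` has no poles at real points `s > 0`, as `ζ(s) ≠ 0` there.  The prime powers contribute to the summatory function of
the coefficients of `-log F` with a sign, so that the hypothesis bounds the logarithmic means of its positive part;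
comparing them with its Laplace transform one excludes all zeros and poles to the right of `c` and bounds the order at
`c` by `ρ`.  The poles of the Gamma factors, or of the removed Euler factor, are real zeros of `F`.
-/

set_option autoImplicit false

namespace Pool.Agent.Results.MP_fa98d2_nt.CriticalMeans

open Pool.Agent.Y243.SP Pool.Agent.Q12.WN Pool.Agent.Q18.P DirichletCharacter
open Pool.Agent.W189.TP (PS)

open scoped Classical in
/-- **One-sided logarithmic means over the split primes at the point `c` on one sequence of windows bound all local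
components of a spherical cusp form, and the inequality is strict if `ρ < 1`.** -/
theorem result {n : ℕ} (α : Nat.Primes → Fin n → ℂ) (μ : Fin n → ℂ) (h : TwistedCuspForm α μ) (q : ℕ) [NeZero q]
    (X : Subgroup (DirichletCharacter ℂ q)) (c δ ρ B : ℝ) (hc : 0 < c) (hδ : 0 < δ) (hδ1 : δ < 1)
    -- the one-sided bound in the mean, on one sequence of windows
    (hY : ∀ Y₀ : ℝ, ∃ Y : ℝ, Y₀ ≤ Y ∧ ∫ y in (Y ^ (1 - δ))..Y,
      max (((-∑' p : Nat.Primes, if ((p : ℕ) : ℝ) ≤ y then Real.log (1 - ((p : ℕ) : ℝ) ^ (-c)) else 0) -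
        Nat.card X * ∑' p : Nat.Primes, if ((p : ℕ) : ℝ) ≤ y ∧ ∀ χ ∈ X, χ ((p : ℕ) : ZMod q) = 1 then
          ‖∑ i, α p i‖ ^ 2 * ((p : ℕ) : ℝ) ^ (-c) else 0) -
        ρ * Real.log (Real.log y)) 0 / y ≤ B * Real.log Y) :
    -- all places
    ((∀ (p : Nat.Primes) (i : Fin n), |Real.logb ((p : ℕ) : ℝ) ‖α p i‖| ≤ c / 2) ∧ ∀ i, |(μ i).re| ≤ c / 2) ∧
    -- strict inequalities
    (ρ < 1 → (∀ (p : Nat.Primes) (i : Fin n), |Real.logb ((p : ℕ) : ℝ) ‖α p i‖| < c / 2) ∧ ∀ i, |(μ i).re| < c / 2) ∧
    -- the half-plane `Re s > c`, and the order at `s = c`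
    (∀ F : ℂ → ℂ, MeromorphicOn F Set.univ →
      (∀ s : ℂ, 1 < s.re → F s * riemannZeta s =
        Complex.exp (∑ χ : {χ // χ ∈ XS X}, ser (fun p : PS ∅ => ((p.1 : ℕ) : ℝ))
          (fun p => χ.1.primitiveCharacter ((p.1 : ℕ) : ZMod χ.1.conductor)) (fun p k => ‖∑ i, α p.1 i ^ k‖ ^ 2) s)) →
      (∀ s : ℂ, c < s.re → meromorphicOrderAt F s = 0) ∧
      ∃ m : ℤ, meromorphicOrderAt F (c : ℂ) = m ∧ (m : ℝ) ≤ ρ) := by
  obtain ⟨h1, h2, h3, h4⟩ := sph_crit h hc X (ρ := ρ) (B := B) hδ hδ1 (fun Y₀ => hY Y₀)
  refine ⟨⟨fun p i => ?_, fun i => ?_⟩, fun hρ => ⟨fun p i => ?_, fun i => ?_⟩, h4⟩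
  · have := h1 p i
    linarith
  · have := h2 i
    linarith
  · have := (h3 hρ).1 p i
    linarith
  · have := (h3 hρ).2 i
    linarith

end Pool.Agent.Results.MP_fa98d2_nt.CriticalMeans
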