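import Mathlib
import Pool.Agent.TH949.RES.PGL
import Pool.Agent.Q18.S.Unif

/-!
# Spherical cusp forms on `PGL_n`: the least prime with `θ_{φ,p} < δ` is at most a power of `log Q`

Let `n ≥ 2` and let `φ` be a spherical cusp form on `PGL_n` over `ℚ`, with Satake parameters `α_{i,p}` and Langlands
parameters `μ_i` at the real place, `θ_{φ,p} = max_i |log_p |α_{i,p}||`, and let `Q = ∏_{i,j} (1 + |μ_i - μ_j|)` be the
conductor of `L(s, π × π~)`.  Put `m = ⌊n / 2⌋`.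

**Theorem 1.**  Let `0 < δ ≤ 1/2`, `m (1 - 2 δ) < σ < 1` and `κ (1 - σ) > 1`.  There is a constant `C`, depending only on
`n, δ, σ, κ`, such that for every spherical cusp form `φ` on `PGL_n`

* `#{p ≤ x : θ_{φ,p} ≥ δ} ≤ C (1 + log Q) x^σ` for all `x ≥ 1`;
* there is a prime `p ≤ C (1 + log Q)^κ` with `θ_{φ,p} < δ`.

For `n = 2, 3` the condition is `σ > 1 - 2 δ`: for every `δ > 0` the least prime with `θ_{φ,p} < δ` is
`≪ (1 + log Q)^κ`, `κ > 1 / (2 δ)`; for `n = 4, 5` one needs `δ > 1/4`, for `n = 6, 7` `δ > 1/3`.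

**Theorem 2.**  For `n = 4` the same holds for all `0 < δ ≤ 1/2`, with the condition `1 - 2 δ < σ < 1`.

So at most small primes, in terms of the conductor, the form is nearly tempered.  Known before: for a given `φ`, the
primes with `θ_{φ,p} = 0`, `n ≤ 3`, are infinite in number (Ramakrishnan), and the least one is `≪ Q^{1 + ε}`
(`LeastSmallTrace` of this problem); nothing for `n ≥ 4`.

`SphericalCuspForm` lists known facts on `φ` (only the unitarity of `π_p` and the absolute convergence of the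
Rankin-Selberg Euler product for `Re s > 1` are used).  `EdgeBound B t L`: for `η > 0` the logarithm of the Euler product
at `1 + η` is `≤ B(η) L`, `L = 1 + log Q`.  For `L(s, π × π~)` this is known with `B` depending only on `n`: by the functional
equation and the convexity principle `L(1 + η, π × π~) ≤ (C Q)^{C}` (Brumley, even `≪ Q^ε` by X. Li); the same
for the exterior square of forms on `GL_4`, an automorphic representation of `GL_6` (Kim) whose conductor is at most a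
power of `Q`.

Proof: `|∑_i α_{i,p}^k| ≥ c p^{kθ}` for one `k ≤ m`, if `p^θ` is large, as at most `m` parameters have absolute value
`> 1`; so `∑ p^{-m (s - 2δ)}` over the primes with `θ_{φ,p} ≥ δ` is at most a constant times `log L(s, π × π~)`, whose
coefficients are nonnegative.  For `n = 4` either the trace or the trace of the exterior square is
`≥ p^θ + p^{-θ} - 2`.  The number of all primes up to `x` is `≥ x^{1 - ε}` (Chebyshev).
-/

set_option autoImplicit false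

namespace Pool.Agent.Results.MP_fa98d2_nt.LeastNearlyTemperedPrime

open Pool.Agent.Q18.S
open Pool.Agent.TH949.RES (SphericalCuspForm)

/-- the conductor `∏_{i,j} (1 + |μ_i - μ_j|)` -/
noncomputable def Q {n : ℕ} (μ : Fin n → ℂ) : ℝ := ∏ i, ∏ j, (1 + ‖μ i - μ j‖)

/-- `∑_p ∑_{k ≥ 1} |t(p, k)|² / k · p^{-k(1 + η)} ≤ B(η) (1 + log Q)` for all `η > 0` (with convergence) -/
def EdgeBound (B : ℝ → ℝ) (t : Nat.Primes → ℕ → ℂ) (Q : ℝ) : Prop :=
  ∀ η : ℝ, 0 < η → Summable (rsTerm (fun p : Nat.Primes => ((p : ℕ) : ℝ)) t (1 + η)) ∧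
    ∑' x, rsTerm (fun p : Nat.Primes => ((p : ℕ) : ℝ)) t (1 + η) x ≤ B η * (1 + Real.log Q)

theorem one_le_Q {n : ℕ} (μ : Fin n → ℂ) : 1 ≤ Q μ := by
  have h : ∀ i j, 1 ≤ 1 + ‖μ i - μ j‖ := fun i j => by linarith [norm_nonneg (μ i - μ j)]
  calc (1 : ℝ) = ∏ i : Fin n, ∏ j : Fin n, (1 : ℝ) := by simp
    _ ≤ Q μ := Finset.prod_le_prod (fun i _ => by simp) fun i _ =>
        Finset.prod_le_prod (fun j _ => zero_le_one) fun j _ => h i j

theorem norm_gt (p : Nat.Primes) : 1 < ((p : ℕ) : ℝ) := by exact_mod_cast p.2.one_lt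

theorem fin_primes (b : ℝ) : {p : Nat.Primes | ((p : ℕ) : ℝ) ≤ b}.Finite := by
  refine Set.Finite.of_finite_image (f := fun p : Nat.Primes => (p : ℕ))
    ((Set.finite_Iic ⌊b⌋₊).subset ?_) (Subtype.val_injective.injOn)
  rintro _ ⟨v, hv, rfl⟩
  exact Nat.le_floor hv

/-- **Spherical cusp forms on `PGL_n`: few primes with `θ ≥ δ`, and the least prime with `θ < δ`, uniformly.** -/
theorem result :
    -- all `n`
    (∀ (n : ℕ) (B : ℝ → ℝ) (δ σ κ : ℝ), 0 < δ → δ ≤ 1 / 2 → (n / 2 : ℕ) * (1 - 2 * δ) < σ → σ < 1 →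
      1 < κ * (1 - σ) → ∃ C : ℝ, 0 < C ∧ ∀ (α : Nat.Primes → Fin n → ℂ) (μ : Fin n → ℂ), SphericalCuspForm α μ →
        EdgeBound B (fun p k => ∑ i, α p i ^ k) (Q μ) →
        (∀ x : ℝ, 1 ≤ x →
          (({p : Nat.Primes | ((p : ℕ) : ℝ) ≤ x ∧ ∃ i, ((p : ℕ) : ℝ) ^ δ ≤ ‖α p i‖}.ncard : ℕ) : ℝ) ≤
            C * (1 + Real.log (Q μ)) * x ^ σ) ∧
        ∃ p : Nat.Primes, ((p : ℕ) : ℝ) ≤ C * (1 + Real.log (Q μ)) ^ κ ∧ ∀ i, ‖α p i‖ < ((p : ℕ) : ℝ) ^ δ) ∧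
    -- `n = 4`
    ∀ (B : ℝ → ℝ) (δ σ κ : ℝ), 0 < δ → δ ≤ 1 / 2 → 1 - 2 * δ < σ → σ < 1 →
      1 < κ * (1 - σ) → ∃ C : ℝ, 0 < C ∧ ∀ (α : Nat.Primes → Fin 4 → ℂ) (μ : Fin 4 → ℂ), SphericalCuspForm α μ →
        EdgeBound B (fun p k => ∑ i, α p i ^ k) (Q μ) → EdgeBound B (fun p k => ext2 (α p) k) (Q μ) →
        (∀ x : ℝ, 1 ≤ x →
          (({p : Nat.Primes | ((p : ℕ) : ℝ) ≤ x ∧ ∃ i, ((p : ℕ) : ℝ) ^ δ ≤ ‖α p i‖}.ncard : ℕ) : ℝ) ≤
            C * (1 + Real.log (Q μ)) * x ^ σ) ∧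
        ∃ p : Nat.Primes, ((p : ℕ) : ℝ) ≤ C * (1 + Real.log (Q μ)) ^ κ ∧ ∀ i, ‖α p i‖ < ((p : ℕ) : ℝ) ^ δ := by
  -- the common part
  have common : ∀ (n : ℕ) (C₁ σ κ δ : ℝ), 0 ≤ σ → σ < 1 → 1 < κ * (1 - σ) → 0 ≤ C₁ → ∃ C : ℝ, 0 < C ∧
      ∀ (α : Nat.Primes → Fin n → ℂ) (μ : Fin n → ℂ),
      (∀ F : Finset Nat.Primes, (∀ p ∈ F, ∃ i, ((p : ℕ) : ℝ) ^ δ ≤ ‖α p i‖) →
        ∑ p ∈ F, ((p : ℕ) : ℝ) ^ (-σ) ≤ C₁ * (1 + Real.log (Q μ))) →
      (∀ x : ℝ, 1 ≤ x →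
        (({p : Nat.Primes | ((p : ℕ) : ℝ) ≤ x ∧ ∃ i, ((p : ℕ) : ℝ) ^ δ ≤ ‖α p i‖}.ncard : ℕ) : ℝ) ≤
          C * (1 + Real.log (Q μ)) * x ^ σ) ∧
      ∃ p : Nat.Primes, ((p : ℕ) : ℝ) ≤ C * (1 + Real.log (Q μ)) ^ κ ∧ ∀ i, ‖α p i‖ < ((p : ℕ) : ℝ) ^ δ := by
    intro n C₁ σ κ δ hσ0 hσ hκ hC₁
    obtain ⟨C₂, hC₂, H⟩ := least_prime hσ hκ C₁
    refine ⟨max C₁ C₂, lt_max_of_lt_right hC₂, fun α μ hF => ?_⟩
    have hL : 1 ≤ 1 + Real.log (Q μ) := by linarith [Real.log_nonneg (one_le_Q μ)]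
    have h1 : ∀ x : ℝ, 1 ≤ x →
        (({p : Nat.Primes | ((p : ℕ) : ℝ) ≤ x ∧ ∃ i, ((p : ℕ) : ℝ) ^ δ ≤ ‖α p i‖}.ncard : ℕ) : ℝ) ≤
          C₁ * (1 + Real.log (Q μ)) * x ^ σ := fun x hx =>
      count_sub norm_gt hσ0 fin_primes hF (by linarith)
    refine ⟨fun x hx => (h1 x hx).trans ?_, ?_⟩
    · exact mul_le_mul_of_nonneg_right (mul_le_mul_of_nonneg_right (le_max_left _ _) (by linarith))
        (Real.rpow_nonneg (by linarith) _)
    · obtain ⟨p, hp1, hp2⟩ := H (fun p => ∃ i, ((p : ℕ) : ℝ) ^ δ ≤ ‖α p i‖) _ hL h1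
      refine ⟨p, hp1.trans (mul_le_mul_of_nonneg_right (le_max_right _ _) (Real.rpow_nonneg (by linarith) _)), ?_⟩
      intro i
      by_contra h
      exact hp2 ⟨i, not_lt.1 h⟩
  constructor
  · intro n B δ σ κ hδ hδ2 hσm hσ hκ
    obtain ⟨C, s, hC, hs, H⟩ := sparse_unif.{0} n norm_gt fin_primes hδ hδ2 hσm
    have hσ0 : 0 ≤ σ := by
      have h2 : 0 ≤ ((n / 2 : ℕ) : ℝ) * (1 - 2 * δ) := mul_nonneg (Nat.cast_nonneg _) (by linarith)
      linarith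
    obtain ⟨C', hC', H'⟩ := common n (C * (1 + |B (s - 1)|)) σ κ δ hσ0 hσ hκ (by positivity)
    refine ⟨C', hC', fun α μ h hB => H' α μ fun F hF => ?_⟩
    obtain ⟨h1, h2⟩ := hB (s - 1) (by linarith)
    rw [show 1 + (s - 1) = s by ring] at h1 h2
    refine (H α h.unitary h1 F hF).trans ?_
    have hL : 0 ≤ Real.log (Q μ) := Real.log_nonneg (one_le_Q μ)
    rw [mul_assoc]
    refine mul_le_mul_of_nonneg_left ?_ hC
    have h3 : B (s - 1) * (1 + Real.log (Q μ)) ≤ |B (s - 1)| * (1 + Real.log (Q μ)) :=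
      mul_le_mul_of_nonneg_right (le_abs_self _) (by linarith)
    linarith
  · intro B δ σ κ hδ hδ2 hσm hσ hκ
    obtain ⟨C, s, hC, hs, H⟩ := four_unif (ι := Nat.Primes) norm_gt fin_primes hδ hδ2 hσm
    obtain ⟨C', hC', H'⟩ := common 4 (C * (1 + 2 * |B (s - 1)|)) σ κ δ (by linarith) hσ hκ (by positivity)
    refine ⟨C', hC', fun α μ h hB hB2 => H' α μ fun F hF => ?_⟩
    obtain ⟨h1, h2⟩ := hB (s - 1) (by linarith)
    obtain ⟨h3, h4⟩ := hB2 (s - 1) (by linarith)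
    rw [show 1 + (s - 1) = s by ring] at h1 h2 h3 h4
    refine (H α h.ne_zero h.unitary h1 h3 F hF).trans ?_
    have hL : 0 ≤ Real.log (Q μ) := Real.log_nonneg (one_le_Q μ)
    rw [mul_assoc]
    refine mul_le_mul_of_nonneg_left ?_ hC
    have h5 : B (s - 1) * (1 + Real.log (Q μ)) ≤ |B (s - 1)| * (1 + Real.log (Q μ)) :=
      mul_le_mul_of_nonneg_right (le_abs_self _) (by linarith)
    linarith

end Pool.Agent.Results.MP_fa98d2_nt.LeastNearlyTemperedPrime
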