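import Mathlib
import Pool.Agent.Q12.WN.SphPi

/-!
# Spherical cusp forms on `PGL_n`: a bias among the primes which split completely in an abelian field, at every scale

Let `n ≥ 2` and let `φ` be a spherical cusp form on `PGL_n` over `ℚ`, with Satake parameters `α_{i,p}`, Langlands
parameters `μ_i` at the real place and Hecke eigenvalues `λ(p) = ∑_i α_{i,p}`.  Recall
`θ_{φ,p} = max_i |log_p |α_{i,p}||` and `θ_{φ,∞} = max_i |Re μ_i|`.  Let `X` be any group of Dirichlet characters modulo
`q`, and `S_X` the set of the primes `p` with `χ(p) = 1` for all `χ ∈ X`: the primes not dividing `q` which split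
completely in the abelian number field which belongs to `X`.  By the prime number theorem for the functions
`L(s, (π ⊗ χ) × π~)`,

  `∑_{p ≤ x, p ∈ S_X} |λ(p)|² = π(x) / |X| + o(x / log x)`.

We show that a strong violation of the Ramanujan conjecture at ONE place forces a bias of a fixed sign at every scale in
this asymptotic formula, for every `X`: if `θ_{φ,v} > c / 2` for some place `v ≤ ∞`, where `c ≥ 1/2`, then for all
`δ > 0`, `A > 0` and **all** large `Y` there is an `x ∈ [Y^{1-δ}, Y]` with

  `∑_{p ≤ x, p ∈ S_X} |λ(p)|² ≤ π(x) / |X| - A x^c`.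

Nothing is assumed of the zeros of the functions `L(s, χ)` (real or not).  Equivalently: if for ONE group `X`, one
`δ > 0` and one (arbitrarily sparse) sequence `Y → ∞` the one-sided bound
`∑_{p ≤ x, p ∈ S_X} |λ(p)|² > π(x) / |X| - A x^c` holds in the windows `x ∈ [Y^{1-δ}, Y]`, then `θ_{φ,v} ≤ c / 2` at
every place `v ≤ ∞`; so every place is controlled by the eigenvalues at the primes `p ≡ 1 mod q`, say.

If moreover no `L(s, χ)`, `χ ∈ X`, has a real zero in `(c, 1)` (for the divisors `q` of `24` this is proved here, for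
the other `q` it is a hypothesis) then also

  `∑_{p ≤ x, p ∈ S_X} (1 - |λ(p)|²) ≥ A x^c`   for some `x ∈ [Y^{1-δ}, Y]`, for all large `Y`.

`OneSidedAllPlaces` is the case `X = 1` (over all primes).  `TemperedSplitPrimes` (starting results) shows that the sums
of `max(0, 1 - |λ(p)|²)` over `S_X` are large for arbitrarily large `x`; here the terms have both signs, the sums are
large in every window, and in the comparison with `π(x) / |X|` no hypothesis on zeros is needed.

The structure `TwistedCuspForm` lists what is used of `φ`: the local components are unitary; `L(s, π × π~)` and its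
twists by the primitive Dirichlet characters have the analytic continuation and the functional equation (Jacquet,
Piatetski-Shapiro, Shalika; Moeglin, Waldspurger).

The proof: let `F(s) = ∏_{χ ∈ X} L(s, (π ⊗ χ) × π~) / ζ(s)`, without the Euler factor at `p` if `p` is the bad place.  The
coefficients of `log F` are `|X| |∑_i α_{i,p}^k|² - 1` or `- 1`, hence those of `-log F` are bounded from above.
The Gamma factors or the removed Euler factor force a real zero of `F` larger than `c`, while `F` has no poles at real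
points `s > 0`, as `ζ(s) ≠ 0` there.  An explicit formula for the summatory function `A(u)` of the coefficients of
`-log F`, localised by a Gaussian at a real point (where all zeros contribute with the right sign) and at a complex
point (where one term is exponentially large) shows that `A` takes large positive values in each window.  The prime
powers contribute at most `O(x^{1/2+ε})` to it from above.
-/

set_option autoImplicit false

namespace Pool.Agent.Results.MP_fa98d2_nt.OneSidedSplitPrimes

open Pool.Agent.Y243.SP Pool.Agent.Q12.WN DirichletCharacter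

open scoped Classical in
/-- **A violation of the Ramanujan conjecture at one place forces a bias among the split primes at every scale.** -/
theorem result {n : ℕ} (α : Nat.Primes → Fin n → ℂ) (μ : Fin n → ℂ) (h : TwistedCuspForm α μ) (q : ℕ) [NeZero q]
    (X : Subgroup (DirichletCharacter ℂ q)) (c : ℝ) (hc : 1 / 2 ≤ c)
    (hv : (∃ (p : Nat.Primes) (i : Fin n), c / 2 < |Real.logb ((p : ℕ) : ℝ) ‖α p i‖|) ∨ ∃ i, c / 2 < |(μ i).re|)
    (δ : ℝ) (hδ : 0 < δ) (A : ℝ) :
    (∃ Y₀ : ℝ, ∀ Y : ℝ, Y₀ ≤ Y → ∃ x : ℝ, Y ^ (1 - δ) ≤ x ∧ x ≤ Y ∧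
      (∑' p : Nat.Primes, if ((p : ℕ) : ℝ) ≤ x ∧ ∀ χ ∈ X, χ ((p : ℕ) : ZMod q) = 1 then ‖∑ i, α p i‖ ^ 2 else 0) ≤
        (Nat.primeCounting ⌊x⌋₊ : ℝ) / Nat.card X - A * x ^ c) ∧
    ((q ∣ 24 ∨ ∀ χ ∈ X, ∀ σ : ℝ, c < σ → σ < 1 → LFunction χ σ ≠ 0) →
      ∃ Y₀ : ℝ, ∀ Y : ℝ, Y₀ ≤ Y → ∃ x : ℝ, Y ^ (1 - δ) ≤ x ∧ x ≤ Y ∧
        A * x ^ c ≤ ∑' p : Nat.Primes,
          if ((p : ℕ) : ℝ) ≤ x ∧ ∀ χ ∈ X, χ ((p : ℕ) : ZMod q) = 1 then 1 - ‖∑ i, α p i‖ ^ 2 else 0) := by
  have hv' : (∃ (p : Nat.Primes) (i : Fin n), c < 2 * |Real.logb ((p : ℕ) : ℝ) ‖α p i‖|) ∨ ∃ i, c < 2 * |(μ i).re| := by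
    rcases hv with ⟨p, i, h1⟩ | ⟨i, h1⟩
    · exact Or.inl ⟨p, i, by linarith⟩
    · exact Or.inr ⟨i, by linarith⟩
  refine ⟨?_, fun hz => ?_⟩
  · obtain ⟨Y₀, hY₀⟩ := Filter.eventually_atTop.1 (sph_pi h hc X hv' hδ A)
    refine ⟨Y₀, fun Y hY => ?_⟩
    obtain ⟨x, h1, h2, h3⟩ := hY₀ Y hY
    exact ⟨x, h1, h2, by linarith⟩
  · have hz' : ∀ χ ∈ X, ∀ σ : ℝ, c < σ → σ < 1 → LFunction χ σ ≠ 0 := by
      intro χ hχ σ h1 h2
      rcases hz with hq | hz
      · exact ne_of_dvd hq χ (by linarith) h2
      · exact hz χ hχ σ h1 h2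
    exact Filter.eventually_atTop.1 (sph_split h hc hz' hv' hδ A)

end Pool.Agent.Results.MP_fa98d2_nt.OneSidedSplitPrimes
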