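import Mathlib
import Pool.Agent.Q222.RK.Sph

/-!
# Spherical cusp forms on `PGL_n`: a criterion for Ramanujan at all places by means over prime powers

Let `n ≥ 2` and let `φ` be a spherical cusp form on `PGL_n` over `ℚ`, with Satake parameters `α_{i,p}` and Langlands
parameters `μ_i` at the real place.  For an integer `N ≥ 0` and `T > 0` let

  `M_N(T) = ∑_p ∑_{k ≤ N} (|∑_i α_{i,p}^k|² - 1) / (k Γ(1 + k log p / T))`,

an absolutely convergent sum over the prime powers with exponents `k ≤ N`; for `T → ∞` the weights of the terms with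
`k log p ≤ o(T)` tend to `1 / k`.

**Theorem.**  The following are equivalent:

(i) the generalized Ramanujan conjecture holds for `φ` at all places, i.e. `|α_{i,p}| = 1` for all `p`, `i` and
`Re μ_i = 0` for all `i`, and `(s - 1) L(s, π × π~)` has no real zeros in `s > 0`;

(ii) for all `N` and all `y > 1/(N+1)`, `M_N(T) ≥ - exp(exp(y T))` for all large `T`;

(iii) for infinitely many `N`, for all `y > 1/(N+1)`, `M_N(T) ≥ - exp(exp(y T))` for arbitrarily large `T`.

Moreover for each single `N`: if for all `y > 1/(N+1)` the inequality `M_N(T) ≥ - exp(exp(y T))` holds for arbitrarily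
large `T`, then `θ_{φ,v} ≤ 1 / (2 (N + 1))` at every place `v ≤ ∞`, where
`θ_{φ,p} = max_i |log_p |α_{i,p}||`, `θ_{φ,∞} = max_i |Re μ_i|`, and `(s - 1) L(s, π × π~)` has no real zeros
`> 1 / (N + 1)`.  (`N = 1`: sums over primes, `θ ≤ 1/4`; `N = 4`: `θ ≤ 1/10 < 7/64`, better than all known bounds.)

So every violation of Ramanujan, at one place, by an arbitrarily small exponent, is visible as a huge negative value of
`M_N(T)`, for all large `N` and ALL large `T`.

The other results of this team on this problem (`OneSidedAllPlaces`, `OneSidedSplitPrimes`) have sharp sums over `p ≤ x`,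
need a bound for all `x` in a window, and give at best `θ_v ≤ 1/4`; here one value of `T` per scale is enough, the bound
is doubly exponentially weak, the statement is an equivalence, and it reaches the full conjecture.

The structure `SphericalCuspForm` lists what is used of `φ`: the local components are unitary; the Rankin-Selberg
series converges absolutely for `Re s > 1`; `L(s, π × π~)` is entire except for a simple pole at `s = 1`, and the
completed function is entire up to poles at `0`, `1` (Jacquet, Piatetski-Shapiro, Shalika; Moeglin, Waldspurger).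

The proof: the sum over ALL prime powers with the weights `1 / (k Γ(1 + k log p / T))` (a Mittag-Leffler mean of the
coefficients of the logarithm of `F = L(s, π × π~) / ζ(s)`) is `O(log T)` if `F` has no positive real zeros, and is of
the size `- exp(exp(β T))` if `β > 0` is the largest one.  The terms with `k > N` are positive up to `exp(exp(z T))`,
`z > 1/(N+1)`, and at most of this size if Ramanujan holds.  The Gamma factors force a zero of `F` at `2 θ_{φ,∞}`, and a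
zero at `2 θ_{φ,p}` if the Euler factor at `p` is removed, which changes `M_N(T)` by a bounded amount only.
-/

set_option autoImplicit false

namespace Pool.Agent.Results.MP_fa98d2_nt.PrimePowerMeans

open Filter Topology
open Pool.Agent.TH949.RES (SphericalCuspForm logL)

/-- `∑_p ∑_{1 ≤ k ≤ N} (|∑_i α_{i,p}^k|² - 1) / (k Γ(1 + k log p / T))` -/
noncomputable def mean {n : ℕ} (α : Nat.Primes → Fin n → ℂ) (N : ℕ) (T : ℝ) : ℝ :=
  ∑' p : Nat.Primes, ∑ k ∈ Finset.Icc 1 N,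
    (‖∑ i, α p i ^ k‖ ^ 2 - 1) / ((k : ℝ) * Real.Gamma (1 + (k : ℝ) * Real.log ((p : ℕ) : ℝ) / T))

/-- `G(s) = (s - 1) L(s, π × π~)`, continued to an entire function -/
def IsRankinSelberg {n : ℕ} (α : Nat.Primes → Fin n → ℂ) (G : ℂ → ℂ) : Prop :=
  Differentiable ℂ G ∧ ∀ s : ℂ, 1 < s.re → G s = (s - 1) * Complex.exp (logL α s)

/-- for all `y > 1 / (N + 1)` there are arbitrarily large `T` with `M_N(T) ≥ - exp (exp (y T))` -/
def OftenLarge {n : ℕ} (α : Nat.Primes → Fin n → ℂ) (N : ℕ) : Prop :=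
  ∀ y : ℝ, 1 / ((N : ℝ) + 1) < y → ∀ T₀ : ℝ, ∃ T : ℝ, T₀ ≤ T ∧ -Real.exp (Real.exp (y * T)) ≤ mean α N T

/-- for all `y > 1 / (N + 1)`, `M_N(T) ≥ - exp (exp (y T))` for all large `T` -/
def AlwaysLarge {n : ℕ} (α : Nat.Primes → Fin n → ℂ) (N : ℕ) : Prop :=
  ∀ y : ℝ, 1 / ((N : ℝ) + 1) < y → ∃ T₀ : ℝ, ∀ T : ℝ, T₀ ≤ T → -Real.exp (Real.exp (y * T)) ≤ mean α N T

theorem norm_one_of {p : Nat.Primes} {z : ℂ} (hz : z ≠ 0)
    (h : ∀ b : ℝ, 0 < b → 2 * |Real.logb ((p : ℕ) : ℝ) ‖z‖| ≤ b) : ‖z‖ = 1 := by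
  have h1 : |Real.logb ((p : ℕ) : ℝ) ‖z‖| = 0 := by
    by_contra h2
    have h3 : 0 < |Real.logb ((p : ℕ) : ℝ) ‖z‖| := lt_of_le_of_ne (abs_nonneg _) (Ne.symm h2)
    have := h _ h3
    linarith
  rw [abs_eq_zero] at h1
  have hp : (1 : ℝ) < ((p : ℕ) : ℝ) := by exact_mod_cast p.2.one_lt
  have h0 : 0 < ‖z‖ := norm_pos_iff.2 hz
  rw [← Real.rpow_logb (by linarith) hp.ne' h0, h1, Real.rpow_zero]

/-- one `N` -/
theorem single {n : ℕ} {α : Nat.Primes → Fin n → ℂ} {μ : Fin n → ℂ} (h : SphericalCuspForm α μ) (N : ℕ)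
    (hN : OftenLarge α N) {b : ℝ} (hb : 1 / ((N : ℝ) + 1) ≤ b) :
    (∀ (p : Nat.Primes) (i : Fin n), 2 * |Real.logb ((p : ℕ) : ℝ) ‖α p i‖| ≤ b) ∧ (∀ i, 2 * |(μ i).re| ≤ b) ∧
      ∀ G : ℂ → ℂ, IsRankinSelberg α G → ∀ x : ℝ, b < x → G (x : ℂ) ≠ 0 := by
  have hN0 : (0 : ℝ) < (N : ℝ) + 1 := by positivity
  have hb0 : 0 < b := lt_of_lt_of_le (by positivity) hb
  have hNb : 1 ≤ ((N : ℝ) + 1) * b := by
    rw [div_le_iff₀ hN0] at hb
    linarith
  have key : ∀ G : ℂ → ℂ, IsRankinSelberg α G → (∀ x : ℝ, b < x → G (x : ℂ) ≠ 0) ∧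
      ∀ (p : Nat.Primes) (i : Fin n), 2 * |Real.logb ((p : ℕ) : ℝ) ‖α p i‖| ≤ b := fun G hG =>
    (Pool.Agent.Q222.RK.sph h hG.1 hG.2 hb0.le N hNb).1 fun y hy =>
      frequently_atTop.2 fun T₀ => hN y (by linarith) T₀
  obtain ⟨G, Ξ, hG, hΞ, h1, -, h3, -⟩ := h.continuation
  obtain ⟨k1, k2⟩ := key G ⟨hG, h1⟩
  refine ⟨k2, fun i => ?_, fun G hG => (key G hG).1⟩
  by_contra hi
  push Not at hi
  have hi0 : (μ i).re ≠ 0 := by
    intro h0
    rw [h0, abs_zero, mul_zero] at hi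
    linarith
  obtain ⟨G', hG', h1', hz⟩ := Pool.Agent.Q222.RK.real_zero h i hi0
  exact (key G' ⟨hG', h1'⟩).1 _ hi hz

/-- **A criterion for the generalized Ramanujan conjecture at all places.** -/
theorem result {n : ℕ} (α : Nat.Primes → Fin n → ℂ) (μ : Fin n → ℂ) (h : SphericalCuspForm α μ)
    (G : ℂ → ℂ) (hG : IsRankinSelberg α G) :
    -- the criterion
    List.TFAE [
      (∀ p i, ‖α p i‖ = 1) ∧ (∀ i, (μ i).re = 0) ∧ ∀ x : ℝ, 0 < x → G (x : ℂ) ≠ 0,
      ∀ N : ℕ, AlwaysLarge α N,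
      ∀ N₀ : ℕ, ∃ N : ℕ, N₀ ≤ N ∧ OftenLarge α N] ∧
    -- one exponent bound `N`
    ∀ N : ℕ, OftenLarge α N →
      (∀ (p : Nat.Primes) (i : Fin n), |Real.logb ((p : ℕ) : ℝ) ‖α p i‖| ≤ 1 / (2 * ((N : ℝ) + 1))) ∧
      (∀ i, |(μ i).re| ≤ 1 / (2 * ((N : ℝ) + 1))) ∧ ∀ x : ℝ, 1 / ((N : ℝ) + 1) < x → G (x : ℂ) ≠ 0 := by
  constructor
  · tfae_have 1 → 2 := by
      rintro ⟨h1, -, h3⟩ N y hy
      have hN0 : (0 : ℝ) < (N : ℝ) + 1 := by positivity
      have hb0 : 0 < 1 / ((N : ℝ) + 1) := by positivity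
      have h4 := (Pool.Agent.Q222.RK.sph h hG.1 hG.2 hb0.le N (by
        rw [mul_one_div_cancel hN0.ne'])).2 (fun p i => (h1 p i).le) (fun x hx => h3 x (hb0.trans hx)) y hy
      exact eventually_atTop.1 h4
    tfae_have 2 → 3 := by
      intro h2 N₀
      refine ⟨N₀, le_rfl, fun y hy T₀ => ?_⟩
      obtain ⟨T₁, hT₁⟩ := h2 N₀ y hy
      exact ⟨max T₀ T₁, le_max_left _ _, hT₁ _ (le_max_right _ _)⟩
    tfae_have 3 → 1 := by
      intro h3
      have key : ∀ b : ℝ, 0 < b →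
          (∀ (p : Nat.Primes) (i : Fin n), 2 * |Real.logb ((p : ℕ) : ℝ) ‖α p i‖| ≤ b) ∧ (∀ i, 2 * |(μ i).re| ≤ b) ∧
            ∀ x : ℝ, b < x → G (x : ℂ) ≠ 0 := by
        intro b hb
        obtain ⟨N₀, hN₀⟩ := exists_nat_gt (1 / b)
        obtain ⟨N, hN, hL⟩ := h3 N₀
        have hN1 : (N₀ : ℝ) ≤ N := by exact_mod_cast hN
        have h5 : 1 / ((N : ℝ) + 1) ≤ b := by
          rw [div_le_iff₀ (by positivity)]
          rw [div_lt_iff₀ hb] at hN₀
          nlinarith
        obtain ⟨k1, k2, k3⟩ := single h N hL h5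
        exact ⟨k1, k2, k3 G hG⟩
      refine ⟨fun p i => norm_one_of (h.ne_zero p i) fun b hb => (key b hb).1 p i, fun i => ?_, fun x hx => ?_⟩
      · by_contra h4
        have h5 : 0 < |(μ i).re| := abs_pos.2 h4
        have := (key _ h5).2.1 i
        linarith
      · exact (key (x / 2) (by linarith)).2.2 x (by linarith)
    tfae_finish
  · intro N hN
    obtain ⟨k1, k2, k3⟩ := single h N hN le_rfl
    have e1 : 1 / (2 * ((N : ℝ) + 1)) = 1 / ((N : ℝ) + 1) / 2 := by
      rw [div_div, mul_comm]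
    rw [e1]
    refine ⟨fun p i => ?_, fun i => ?_, k3 G hG⟩
    · have := k1 p i
      linarith
    · have := k2 i
      linarith

end Pool.Agent.Results.MP_fa98d2_nt.PrimePowerMeans
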